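import Pool.Agent.H332Z.Gap.Main

set_option autoImplicit false

namespace Pool.Agent.Results.MP_2920eb_co.ADesignFalse

open H332Z.Gap

/-- The design conjecture fails for `d = 7`. -/
theorem result :
    (∀ (P L : Type) [Membership P L] [Finite P] [Finite L] [Configuration.ProjectivePlane P L],
      Configuration.ProjectivePlane.order P L ≠ 6) ∧
    ∃ G : SimpleGraph (Fin 66), G.Connected ∧ (∀ v, (G.neighborSet v).ncard = 7) ∧
      gap G = √5 / 7 ∧
      ∀ (P B : Type) [Fintype P] [Fintype B] (blk : B → Finset P) (l : ℕ), IsDesign blk 7 l →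
        (incGraph blk).Connected → gap (incGraph blk) < gap G := by
  classical
  refine ⟨no_plane, G0, conn0, fun v => ?_, gap0, fun P B _ _ blk l hd hc => ?_⟩
  · have h := deg0 v
    rw [← SimpleGraph.card_neighborFinset_eq_degree, ← Set.ncard_coe_finset,
      SimpleGraph.coe_neighborFinset] at h
    exact h
  · rw [gap0]
    refine (design_gap blk hd hc).trans_lt ?_
    have : (2 : ℝ) < √5 := by
      rw [Real.lt_sqrt (by norm_num)]; norm_num
    linarith

end Pool.Agent.Results.MP_2920eb_co.ADesignFalse
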